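import Pool.Agent.H904.PD.Seq

/-!
# Small deformations of one polarised hyperkähler manifold
-/

set_option autoImplicit false
set_option maxHeartbeats 4000000
set_option synthInstance.maxHeartbeats 400000

universe u

namespace Pool.Agent.H904.PD

open Pool.Agent.Q50.HK Pool.Agent.Q50.HK.Moduli Pool.Agent.Q34.HF
  Pool.Agent.Q34.HF.Fibrations Filter Topology

variable {n : ℕ}

section

variable {T : Moduli.{u} n}

/-- The projection of a class `x` orthogonal to `h` to the orthogonal complement of `h` and `v`, for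
isotropic `v` with `B h v ≠ 0`. -/
noncomputable def pj (T : Moduli.{u} n) (h x v : V n) : V n :=
  x - (T.B x v / T.B h v) • h + (T.B x v * T.B h h / T.B h v ^ 2) • v

theorem pj_orth (hT : T.Facts) {h x v : V n} (hx : T.B x h = 0) (hv : T.B v v = 0)
    (hβ : T.B h v ≠ 0) : T.B h (pj T h x v) = 0 ∧ T.B v (pj T h x v) = 0 := by
  have hx' : T.B h x = 0 := by rw [hT.symm]; exact hx
  constructor
  · simp only [pj, map_add, map_sub, map_smul, smul_eq_mul, hx']
    field_simp
    ring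
  · simp only [pj, map_add, map_sub, map_smul, smul_eq_mul, hv, hT.symm v x, hT.symm v h]
    field_simp
    ring

theorem pj_self {h x v : V n} (hx : T.B x v = 0) : pj T h x v = x := by
  simp [pj, hx]

theorem continuousAt_pj (T : Moduli.{u} n) (h x : V n) {v₀ : V n} (hβ : T.B h v₀ ≠ 0) :
    ContinuousAt (pj T h x) v₀ := by
  have c1 : Continuous fun v => T.B x v := LinearMap.continuous_of_finiteDimensional (T.B x)
  have c2 : Continuous fun v => T.B h v := LinearMap.continuous_of_finiteDimensional (T.B h)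
  have h1 : ContinuousAt (fun v => T.B x v / T.B h v) v₀ :=
    c1.continuousAt.div c2.continuousAt hβ
  have h2 : ContinuousAt (fun v => T.B x v * T.B h h / T.B h v ^ 2) v₀ :=
    (c1.continuousAt.mul continuousAt_const).div (c2.continuousAt.pow 2) (pow_ne_zero 2 hβ)
  exact (continuousAt_const.sub (h1.smul continuousAt_const)).add (h2.smul continuousAt_id)

/-- The pairs which span a positive plane. -/
theorem gram (hT : T.Facts) {a b : V n} (h2 : Module.finrank ℝ (Submodule.span ℝ {a, b}) = 2)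
    (hP : T.PosDef (Submodule.span ℝ {a, b})) :
    0 < T.B a a ∧ T.B a b ^ 2 < T.B a a * T.B b b := by
  have haP : a ∈ Submodule.span ℝ {a, b} := Submodule.subset_span (by simp)
  have hbP : b ∈ Submodule.span ℝ {a, b} := Submodule.subset_span (by simp)
  have key : ∀ c : V n, Submodule.span ℝ {a, b} ≤ Submodule.span ℝ {c} → False := by
    intro c hc
    have h3 := Submodule.finrank_mono hc
    rw [h2] at h3
    have h4 := finrank_span_le_card (R := ℝ) ({c} : Set (V n))
    simp at h4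
    omega
  have ha0 : a ≠ 0 := by
    intro h0
    apply key b
    rw [Submodule.span_le]
    rintro x (rfl | hx)
    · rw [h0]
      exact Submodule.zero_mem _
    · rw [Set.mem_singleton_iff.1 hx]
      exact Submodule.mem_span_singleton_self b
  have haa : 0 < T.B a a := hP a haP ha0
  refine ⟨haa, ?_⟩
  set w : V n := b - (T.B a b / T.B a a) • a with hw
  have hwP : w ∈ Submodule.span ℝ {a, b} :=
    Submodule.sub_mem _ hbP (Submodule.smul_mem _ _ haP)
  have hw0 : w ≠ 0 := by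
    intro h0
    have hb : b = (T.B a b / T.B a a) • a := sub_eq_zero.1 h0
    apply key a
    rw [Submodule.span_le]
    rintro x (rfl | hx)
    · exact Submodule.mem_span_singleton_self _
    · rw [Set.mem_singleton_iff.1 hx]
      exact Submodule.mem_span_singleton.2 ⟨_, hb.symm⟩
  have hww := hP w hwP hw0
  have e : T.B w w = (T.B a a * T.B b b - T.B a b ^ 2) / T.B a a := by
    rw [hw]
    simp only [map_sub, LinearMap.sub_apply, map_smul, LinearMap.smul_apply, smul_eq_mul,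
      hT.symm b a]
    field_simp
    ring
  rw [e] at hww
  have h5 := (div_pos_iff_of_pos_right haa).1 hww
  linarith

theorem isOpen_gram (T : Moduli.{u} n) :
    IsOpen {p : V n × V n | 0 < T.B p.1 p.1 ∧ T.B p.1 p.2 ^ 2 < T.B p.1 p.1 * T.B p.2 p.2} := by
  have hB : Continuous fun p : V n × V n => T.B p.1 p.2 := by
    have h : ∀ p : V n × V n, T.B p.1 p.2 =
        ∑ i, p.1 i * T.B (fun j => if i = j then 1 else 0) p.2 := by
      intro p
      conv_lhs => rw [LinearMap.pi_apply_eq_sum_univ T.B p.1]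
      rw [LinearMap.sum_apply]
      rfl
    simp_rw [h]
    refine continuous_finsetSum _ fun i _ => ?_
    exact ((continuous_apply i).comp continuous_fst).mul
      ((LinearMap.continuous_of_finiteDimensional _).comp continuous_snd)
  have c1 : Continuous fun p : V n × V n => T.B p.1 p.1 := (continuous_form T).comp continuous_fst
  have c2 : Continuous fun p : V n × V n => T.B p.2 p.2 := (continuous_form T).comp continuous_snd
  exact (isOpen_lt continuous_const c1).inter (isOpen_lt (hB.pow 2) (c1.mul c2))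

end

section

variable {T : Moduli.{u} n}

/-- The manifold `M` is projective, its Picard number is two, it has no MBM classes of type `(1,1)`,
and its Kähler cone is a connected component of the cone of the classes of type `(1,1)` and of
positive square. -/
structure Good (T : Moduli.{u} n) (M : T.Mk) : Prop where
  projective : T.Projective M
  picard : T.picard M = 2
  mbm : ∀ δ ∈ T.mbm, ¬ T.Orth (T.period M) δ
  cone : ∀ x ∈ T.kahler M, ∀ y, y ∈ T.kahler M ↔
    T.Orth (T.period M) y ∧ 0 < T.B y y ∧ 0 < T.B x y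

end

section

variable {T : Fibrations.{u} n}

theorem exists_near (hT : T.Facts) (hn : 5 ≤ n) {h a₀ b₀ v₀ : V n} (hh : IsInt h)
    (hhh : 0 < T.B h h) (g1 : 0 < T.B a₀ a₀) (g2 : T.B a₀ b₀ ^ 2 < T.B a₀ a₀ * T.B b₀ b₀)
    (hah : T.B a₀ h = 0) (hbh : T.B b₀ h = 0) (hav : T.B a₀ v₀ = 0) (hbv : T.B b₀ v₀ = 0)
    (hvv : T.B v₀ v₀ = 0) (hhv : 0 < T.B h v₀)
    {U : Set (V n × V n × V n)} (hU : IsOpen U) (habU : (a₀, b₀, v₀) ∈ U) {l : V n} (hl : IsInt l)
    (h0 : l ≠ 0) (hq : T.B l l = 0) :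
    ∃ M, ∃ φ ∈ T.mon, T.NefIsotropic M (φ l) ∧ Good T.toModuli M ∧ h ∈ T.kahler M ∧
      ∃ (a b : V n) (c : ℝ), 0 < c ∧ (a, b, c • φ l) ∈ U ∧
        T.period M = Submodule.span ℝ {a, b} := by
  have hF : T.toModuli.Facts := hT.toFacts
  have hv0 : v₀ ≠ 0 := by
    intro h1
    rw [h1, map_zero] at hhv
    exact lt_irrefl _ hhv
  -- the neighbourhood of `v₀`
  set U' : Set (V n × V n × V n) := U ∩ (fun p : V n × V n × V n => (p.1, p.2.1)) ⁻¹'
    {p : V n × V n | 0 < T.B p.1 p.1 ∧ T.B p.1 p.2 ^ 2 < T.B p.1 p.1 * T.B p.2 p.2} with hU'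
  have hU'o : IsOpen U' := hU.inter ((isOpen_gram T.toModuli).preimage
    (continuous_fst.prodMk (continuous_fst.comp continuous_snd)))
  have hab' : (a₀, b₀, v₀) ∈ U' := ⟨habU, g1, g2⟩
  have hcont : ContinuousAt (fun v => (pj T.toModuli h a₀ v, pj T.toModuli h b₀ v, v)) v₀ :=
    (continuousAt_pj T.toModuli h a₀ hhv.ne').prodMk
      ((continuousAt_pj T.toModuli h b₀ hhv.ne').prodMk continuousAt_id)
  have hmem : ∀ᶠ v in 𝓝 v₀, (pj T.toModuli h a₀ v, pj T.toModuli h b₀ v, v) ∈ U' := by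
    apply hcont.eventually
    apply hU'o.mem_nhds
    show (pj T.toModuli h a₀ v₀, pj T.toModuli h b₀ v₀, v₀) ∈ U'
    rw [pj_self hav, pj_self hbv]
    exact hab'
  have c2 : Continuous fun v => T.B h v := LinearMap.continuous_of_finiteDimensional (T.B h)
  have hmem2 : ∀ᶠ v in 𝓝 v₀, T.B h v₀ / 2 < T.B h v := by
    apply c2.continuousAt.eventually (lt_mem_nhds _)
    show T.B h v₀ / 2 < T.B h v₀
    linarith
  obtain ⟨O, hOs, hO, hvO⟩ := _root_.mem_nhds_iff.1 (hmem.and hmem2)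
  obtain ⟨C, hC⟩ := hF.bounded
  obtain ⟨q, hq0, hseq⟩ := seq hT hn hl h0 hq hv0 hvv hO hvO
  set K : ℝ := T.B h h ^ 2 * |C| * q + 1 with hK
  have hK0 : 0 < K := by positivity
  obtain ⟨φ, hφ, c, hc0, hcε, hcO, z, hz, hzl, hzq⟩ := hseq (T.B h v₀ / (2 * K)) (by positivity)
  obtain ⟨i1, i2, i3⟩ := image_int hT hφ hl h0 hq
  set l' : V n := φ l with hl'
  obtain ⟨hv1, hv2⟩ := hOs hcO
  have hcl : T.B h (c • l') = c * T.B h l' := by rw [map_smul, smul_eq_mul]
  rw [hcl] at hv2
  -- `B h l'` is large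
  have hβK : K < T.B h l' := by
    by_contra hcon
    push Not at hcon
    have h1 : c * T.B h l' ≤ c * K := mul_le_mul_of_nonneg_left hcon hc0.le
    have h2 : c * K < T.B h v₀ / (2 * K) * K := mul_lt_mul_of_pos_right hcε hK0
    have h3 : T.B h v₀ / (2 * K) * K = T.B h v₀ / 2 := by field_simp
    linarith
  have hβp : 0 < T.B h l' := hK0.trans hβK
  -- the classes of type `(1,1)`
  set N : Submodule ℝ (V n) := Submodule.span ℝ {h, l'} with hN
  set a₁ : V n := pj T.toModuli h a₀ (c • l') with ha₁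
  set b₁ : V n := pj T.toModuli h b₀ (c • l') with hb₁
  have hvv' : T.B (c • l') (c • l') = 0 := by
    simp only [map_smul, LinearMap.smul_apply, i3, smul_zero]
  have hβ' : T.B h (c • l') ≠ 0 := by
    rw [hcl]
    positivity
  have horth : ∀ x : V n, T.B x h = 0 → T.Orth N (pj T.toModuli h x (c • l')) := by
    intro x hx
    obtain ⟨o1, o2⟩ := pj_orth hF hx hvv' hβ'
    rw [hN, orth_span_pair]
    refine ⟨o1, ?_⟩
    rw [map_smul, LinearMap.smul_apply, smul_eq_mul] at o2
    exact (mul_eq_zero.1 o2).resolve_left hc0.ne'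
  have ha₁N := horth a₀ hah
  have hb₁N := horth b₀ hbh
  obtain ⟨a₂, ha₂N, ha₂U, ha₂⟩ := generic T.toModuli (T.B.orthogonal N) {d | IsInt d ∧ d ∉ N}
    (countable_int.mono fun x hx => hx.1) (by
      rintro d ⟨hd, hdN⟩
      by_contra hcon
      push Not at hcon
      exact hdN (mem_of_orth hF N fun s hs => hcon s hs))
    (U := {x | (x, b₁, c • l') ∈ U'}) (hU'o.preimage (continuous_id.prodMk continuous_const))
    (u := a₁) ha₁N hv1
  replace ha₂N : T.Orth N a₂ := ha₂N
  obtain ⟨hpU, gg1, gg2⟩ := ha₂U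
  set P : Submodule ℝ (V n) := Submodule.span ℝ {a₂, b₁} with hP
  obtain ⟨p2, pp⟩ := span_pair hF gg1 gg2
  change Module.finrank ℝ P = 2 at p2
  change T.PosDef P at pp
  have hhN : h ∈ N := Submodule.subset_span (by simp)
  have hlN : l' ∈ N := Submodule.subset_span (by simp)
  have hNP : ∀ x ∈ N, T.Orth P x := by
    intro x hx
    rw [hP, orth_span_pair]
    exact ⟨by rw [hF.symm]; exact ha₂N x hx, by rw [hF.symm]; exact hb₁N x hx⟩
  have hNS : ∀ d, IsInt d → T.Orth P d → d ∈ N := by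
    intro d hd hdP
    by_contra hdN
    rw [hP, orth_span_pair] at hdP
    exact ha₂ d ⟨hd, hdN⟩ hdP.1
  have hno : ∀ δ ∈ T.mbm, ¬ T.Orth P δ := by
    intro δ hδ hδP
    obtain ⟨hδi, hδn⟩ := hF.mbm δ hδ
    have h1 := no_small hF hh i1 hz hδi hhh i3 hβp hzl hzq (hNS δ hδi hδP) hδn
      (C := |C|) (by
        have := hC δ hδ
        have := le_abs_self C
        linarith)
    linarith
  have hreg : T.Regular P h := ⟨hNP h hhN, hhh, fun δ hδ hδP => absurd hδP (hno δ hδ)⟩
  obtain ⟨M, hMP, hhM'⟩ := hF.surjective P h p2 pp hreg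
  have hcone : ∀ x ∈ T.kahler M, ∀ y, y ∈ T.kahler M ↔
      T.Orth P y ∧ 0 < T.B y y ∧ 0 < T.B x y := by
    intro x hx y
    rw [(hF.kahler M x hx).2 y, hMP]
    constructor
    · rintro ⟨⟨h1, h2, -⟩, h3, -⟩
      exact ⟨h1, h2, h3⟩
    · rintro ⟨h1, h2, h3⟩
      exact ⟨⟨h1, h2, fun δ hδ hδP => absurd hδP (hno δ hδ)⟩, h3,
        fun δ hδ hδP => absurd hδP (hno δ hδ)⟩
  have hpic : T.picard M = 2 := by
    have hspan : Submodule.span ℝ {x : V n | T.NS M x} = N := by
      apply le_antisymm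
      · rw [Submodule.span_le]
        rintro x ⟨hx1, hx2⟩
        rw [hMP] at hx2
        exact hNS x hx1 hx2
      · rw [hN, Submodule.span_le]
        rintro x (rfl | hx)
        · exact Submodule.subset_span ⟨hh, by rw [hMP]; exact hNP _ hhN⟩
        · rw [Set.mem_singleton_iff.1 hx]
          exact Submodule.subset_span ⟨i1, by rw [hMP]; exact hNP _ hlN⟩
    unfold Moduli.picard
    rw [hspan, hN]
    have hli : LinearIndependent ℝ ![h, l'] := by
      rw [LinearIndependent.pair_iff]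
      intro s t hst
      have e1 : T.B (s • h + t • l') l' = s * T.B h l' := by
        simp only [map_add, LinearMap.add_apply, map_smul, LinearMap.smul_apply, smul_eq_mul, i3]
        ring
      rw [hst] at e1
      have hs : s = 0 := by
        simp only [map_zero, LinearMap.zero_apply] at e1
        rcases mul_eq_zero.1 e1.symm with h1 | h1
        · exact h1
        · exact absurd h1 hβp.ne'
      refine ⟨hs, ?_⟩
      rw [hs, zero_smul, zero_add] at hst
      exact (smul_eq_zero.1 hst).resolve_right i2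
    have h3 := finrank_span_eq_card hli
    have h4 : Set.range ![h, l'] = {h, l'} := by
      ext z
      simp only [Set.mem_range, Fin.exists_fin_two, Matrix.cons_val_zero, Matrix.cons_val_one,
        Set.mem_insert_iff, Set.mem_singleton_iff]
      exact or_congr eq_comm eq_comm
    rw [h4] at h3
    rw [h3]
    rfl
  refine ⟨M, φ, hφ, ⟨⟨i1, by rw [hMP]; exact hNP l' hlN⟩, i2, i3, ?_⟩,
    ⟨⟨h, ⟨hh, by rw [hMP]; exact hNP h hhN⟩, hhh⟩, hpic, by rw [hMP]; exact hno,
      by rw [hMP]; exact hcone⟩, hhM', a₂, b₁, c, hc0, hpU, hMP⟩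
  intro y hy
  obtain ⟨y1, y2, y3⟩ := (hcone h hhM' y).1 hy
  have hyl : 0 < T.B y l' := pos_of_pos hF p2 pp hreg.1 hhh y1 y2 (hNP l' hlN) i3 hβp y3
  refine (hcone h hhM' _).2 ⟨?_, ?_, ?_⟩
  · intro p hp
    rw [map_add, hNP l' hlN p hp, y1 p hp, add_zero]
  · have e : T.B (l' + y) (l' + y) = T.B y y + 2 * T.B y l' := by
      simp only [map_add, LinearMap.add_apply, i3, hF.symm l' y]
      ring
    rw [e]
    linarith
  · rw [map_add]
    linarith

/-- Real isotropic classes of type `(1,1)` exist. -/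
theorem exists_real (hF : T.toModuli.Facts) (hn : 4 ≤ n) {P : Submodule ℝ (V n)}
    (hP2 : Module.finrank ℝ P = 2) (hPp : T.PosDef P) {h : V n} (hhP : T.Orth P h)
    (hhh : 0 < T.B h h) : ∃ v, T.Orth P v ∧ T.B v v = 0 ∧ 0 < T.B h v := by
  obtain ⟨e, he0, heP, hhe⟩ := exists_orth_orth hF hn hP2 h
  have hee := neg_of_orth hF hP2 hPp hhP hhh heP hhe he0
  set τ : ℝ := Real.sqrt (T.B h h / -T.B e e) with hτ
  have hτ2 : τ ^ 2 * T.B e e = -T.B h h := by
    rw [hτ, Real.sq_sqrt (div_nonneg hhh.le (by linarith))]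
    have : T.B e e ≠ 0 := hee.ne
    field_simp
  refine ⟨h + τ • e, ?_, ?_, ?_⟩
  · intro p hp
    rw [map_add, map_smul, hhP p hp, heP p hp, smul_zero, add_zero]
  · have : T.B (h + τ • e) (h + τ • e) = T.B h h + τ ^ 2 * T.B e e := by
      simp only [map_add, LinearMap.add_apply, map_smul, LinearMap.smul_apply, smul_eq_mul,
        hF.symm e h, hhe]
      ring
    rw [this, hτ2, add_neg_cancel]
  · rw [map_add, map_smul, hhe, smul_zero, add_zero]
    exact hhh

/-- **Polarised version.** -/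
theorem polarised (hT : T.Facts) (hn : 5 ≤ n) {M₀ : T.Mk} {h a₀ b₀ v₀ : V n} (hh : IsInt h)
    (hhM : h ∈ T.kahler M₀) (hab : T.period M₀ = Submodule.span ℝ {a₀, b₀})
    (hv : T.Orth (T.period M₀) v₀) (hvv : T.B v₀ v₀ = 0) (hhv : 0 < T.B h v₀)
    {U : Set (V n × V n × V n)} (hU : IsOpen U) (habU : (a₀, b₀, v₀) ∈ U) :
    T.FinitelyManyDecide fun M l => Good T.toModuli M ∧ h ∈ T.kahler M ∧
      ∃ (a b : V n) (c : ℝ), 0 < c ∧ (a, b, c • l) ∈ U ∧
        T.period M = Submodule.span ℝ {a, b} := by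
  have hF : T.toModuli.Facts := hT.toFacts
  obtain ⟨hP2, hPp⟩ := hF.period M₀
  obtain ⟨⟨hhP, hhh, -⟩, -⟩ := hF.kahler M₀ h hhM
  rw [hab] at hP2 hPp hhP hv
  rw [orth_span_pair] at hhP hv
  obtain ⟨g1, g2⟩ := gram hF hP2 hPp
  exact decide_of hT _ fun l hl h0 hq =>
    exists_near hT hn hh hhh g1 g2 hhP.1 hhP.2 hv.1 hv.2 hvv hhv hU habU hl h0 hq

/-- **Version for arbitrary manifolds.** -/
theorem arbitrary (hT : T.Facts) (hn : 5 ≤ n) {M₀ : T.Mk} {x₀ a₀ b₀ v₀ : V n}
    (hxM : x₀ ∈ T.kahler M₀) (hab : T.period M₀ = Submodule.span ℝ {a₀, b₀})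
    (hv : T.Orth (T.period M₀) v₀) (hvv : T.B v₀ v₀ = 0) (hxv : 0 < T.B x₀ v₀)
    {U : Set (V n × V n × V n × V n)} (hU : IsOpen U) (habU : (a₀, b₀, x₀, v₀) ∈ U) :
    T.FinitelyManyDecide fun M l => Good T.toModuli M ∧
      ∃ (a b x : V n) (c : ℝ), 0 < c ∧ (a, b, x, c • l) ∈ U ∧
        T.period M = Submodule.span ℝ {a, b} ∧ x ∈ T.kahler M := by
  have hF : T.toModuli.Facts := hT.toFacts
  obtain ⟨hP2, hPp⟩ := hF.period M₀
  obtain ⟨⟨hxP, hxx, -⟩, -⟩ := hF.kahler M₀ x₀ hxM
  rw [hab] at hP2 hPp hxP hv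
  rw [orth_span_pair] at hxP hv
  obtain ⟨g1, g2⟩ := gram hF hP2 hPp
  -- rational classes near `x₀`
  have c1 : ∀ y : V n, Continuous fun w => T.B y w := fun y =>
    LinearMap.continuous_of_finiteDimensional (T.B y)
  have c3 : Continuous fun w => T.B w v₀ := continuous_left T.toModuli v₀
  have hcont : ∀ y : V n, ContinuousAt (fun w => y - (T.B y w / T.B w v₀) • v₀) x₀ := fun y =>
    continuousAt_const.sub (((c1 y).continuousAt.div c3.continuousAt hxv.ne').smul
      continuousAt_const)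
  set U' : Set (V n × V n × V n × V n) := U ∩ (fun p : V n × V n × V n × V n => (p.1, p.2.1)) ⁻¹'
    {p : V n × V n | 0 < T.B p.1 p.1 ∧ T.B p.1 p.2 ^ 2 < T.B p.1 p.1 * T.B p.2 p.2} with hU'
  have hU'o : IsOpen U' := hU.inter ((isOpen_gram T.toModuli).preimage
    (continuous_fst.prodMk (continuous_fst.comp continuous_snd)))
  have hmem : ∀ᶠ w in 𝓝 x₀, (a₀ - (T.B a₀ w / T.B w v₀) • v₀, b₀ - (T.B b₀ w / T.B w v₀) • v₀, w,
      v₀) ∈ U' := by
    apply ((hcont a₀).prodMk ((hcont b₀).prodMk (continuousAt_id.prodMk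
      continuousAt_const))).eventually
    apply hU'o.mem_nhds
    show (a₀ - (T.B a₀ x₀ / T.B x₀ v₀) • v₀, b₀ - (T.B b₀ x₀ / T.B x₀ v₀) • v₀, x₀, v₀) ∈ U'
    rw [hxP.1, hxP.2, zero_div, zero_smul, sub_zero, sub_zero]
    exact ⟨habU, g1, g2⟩
  have hmem2 : ∀ᶠ w in 𝓝 x₀, 0 < T.B w w :=
    (continuous_form T.toModuli).continuousAt.eventually (lt_mem_nhds hxx)
  have hmem3 : ∀ᶠ w in 𝓝 x₀, 0 < T.B w v₀ := c3.continuousAt.eventually (lt_mem_nhds hxv)
  obtain ⟨O, hOs, hO, hvO⟩ := _root_.mem_nhds_iff.1 (hmem.and (hmem2.and hmem3))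
  obtain ⟨D, h, hD, hh, hhO⟩ := exists_rational hO ⟨x₀, hvO⟩
  obtain ⟨⟨hU1, hG1, hG2⟩, hww, hwv⟩ := hOs hhO
  set w : V n := (D : ℝ)⁻¹ • h with hw
  have hDr : (0 : ℝ) < D := by exact_mod_cast hD
  have hhw : h = (D : ℝ) • w := by
    rw [hw, smul_smul, mul_inv_cancel₀ hDr.ne', one_smul]
  have hhh : 0 < T.B h h := by
    rw [hhw]
    simp only [map_smul, LinearMap.smul_apply, smul_eq_mul]
    positivity
  have hhv : 0 < T.B h v₀ := by
    rw [hhw]
    simp only [map_smul, LinearMap.smul_apply, smul_eq_mul]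
    positivity
  clear_value w
  have ho : ∀ y : V n, T.B (y - (T.B y w / T.B w v₀) • v₀) h = 0 := by
    intro y
    have h1 : T.B (y - (T.B y w / T.B w v₀) • v₀) w = 0 := by
      simp only [map_sub, LinearMap.sub_apply, map_smul, LinearMap.smul_apply, smul_eq_mul,
        hF.symm v₀ w]
      rw [div_mul_cancel₀ _ hwv.ne', sub_self]
    rw [hhw, map_smul, h1, smul_zero]
  have ho2 : ∀ y : V n, T.B y v₀ = 0 → T.B (y - (T.B y w / T.B w v₀) • v₀) v₀ = 0 := by
    intro y hy
    rw [map_sub, LinearMap.sub_apply, map_smul, LinearMap.smul_apply, hy, hvv, smul_zero,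
      sub_zero]
  refine decide_of hT _ fun l hl h0 hq => ?_
  obtain ⟨M, φ, hφ, hnef, hgood, hhM, a, b, c, hc, habc, hMP⟩ := exists_near hT hn hh hhh hG1 hG2
    (ho a₀) (ho b₀) (ho2 a₀ hv.1) (ho2 b₀ hv.2) hvv hhv
    (U := {p | (p.1, p.2.1, w, p.2.2) ∈ U}) (hU.preimage (by fun_prop)) hU1 hl h0 hq
  refine ⟨M, φ, hφ, hnef, hgood, a, b, w, c, hc, habc, hMP, ?_⟩
  have hhP := ((hF.kahler M h hhM).1).1
  refine (hgood.cone h hhM w).2 ⟨?_, hww, ?_⟩
  · intro p hp
    rw [hw, map_smul, hhP p hp, smul_zero]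
  · rw [hw, map_smul, smul_eq_mul]
    positivity

/-- The conjecture for all pairs of a kind which contains decisive pairs. -/
theorem iff_of_decide {Q : T.Mk → V n → Prop} (h : T.FinitelyManyDecide Q) :
    (∀ M l, T.NefIsotropic M l → T.SYZ M l) ↔
      ∀ M l, Q M l → T.NefIsotropic M l → T.SYZ M l := by
  obtain ⟨m, M, l, hQ, -, hiff⟩ := h
  constructor
  · intro hall M l _ hl
    exact hall M l hl
  · intro hall
    exact hiff.2 fun i => hall _ _ (hQ i).2 (hQ i).1

end

end Pool.Agent.H904.PD
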