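import Pool.Graph.R_pool_sql_team_seeded_3997aac3.Q34.HF.Main
import Pool.Graph.R_pool_sql_team_seeded_3997aac3.Q50.HK.LMain

/-!
# Large images of an isotropic class under the monodromy group, in a given direction
-/

set_option autoImplicit false
set_option maxHeartbeats 4000000
set_option synthInstance.maxHeartbeats 400000

universe u

namespace Pool.Agent.H904.PD

open Pool.Agent.Q50.HK Pool.Agent.Q50.HK.Moduli Pool.Agent.Q34.HF
  Pool.Agent.Q34.HF.Fibrations Filter Topology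

variable {n : ℕ}

section

variable {T : Moduli.{u} n}

/-- The integral classes in the plane of `h` and `l` which have negative square have large negative
square, if `B h l` is large and `l` is not very divisible. -/
theorem no_small (hT : T.Facts) {h l z δ : V n} (hh : IsInt h) (hl : IsInt l) (hz : IsInt z)
    (hδ : IsInt δ) (hH : 0 < T.B h h) (hll : T.B l l = 0) (hβ : 0 < T.B h l) (hzl : 0 < T.B z l)
    {q C : ℝ} (hq : T.B z l ≤ q) (hmem : δ ∈ Submodule.span ℝ {h, l}) (hneg : T.B δ δ < 0)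
    (hC : -C ≤ T.B δ δ) : T.B h l ≤ T.B h h ^ 2 * C * q := by
  obtain ⟨s, t, rfl⟩ := Submodule.mem_span_pair.1 hmem
  obtain ⟨H, eH⟩ := hT.integral h h hh hh
  obtain ⟨β, eβ⟩ := hT.integral h l hh hl
  obtain ⟨r, er⟩ := hT.integral (s • h + t • l) h hδ hh
  obtain ⟨p, ep⟩ := hT.integral (s • h + t • l) l hδ hl
  obtain ⟨k, ek⟩ := hT.integral (s • h + t • l) (s • h + t • l) hδ hδ
  obtain ⟨y, ey⟩ := hT.integral z h hz hh
  obtain ⟨q', eq'⟩ := hT.integral z l hz hl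
  obtain ⟨x, ex⟩ := hT.integral z (s • h + t • l) hz hδ
  rw [ek] at hneg hC
  rw [eβ] at hβ ⊢
  rw [eH] at hH ⊢
  rw [eq'] at hzl hq
  have er' : (r : ℝ) = s * H + t * β := by
    rw [← er]
    simp only [map_add, LinearMap.add_apply, map_smul, LinearMap.smul_apply, smul_eq_mul, eH,
      hT.symm l h, eβ]
  have ep' : (p : ℝ) = s * β := by
    rw [← ep]
    simp only [map_add, LinearMap.add_apply, map_smul, LinearMap.smul_apply, smul_eq_mul, hll, eβ]
    ring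
  have ek' : (k : ℝ) = s ^ 2 * H + 2 * s * t * β := by
    rw [← ek]
    simp only [map_add, LinearMap.add_apply, map_smul, LinearMap.smul_apply, smul_eq_mul, hll, eH,
      hT.symm l h, eβ]
    ring
  have ex' : (x : ℝ) = s * y + t * q' := by
    rw [← ex]
    simp only [map_add, map_smul, smul_eq_mul, ey, eq']
  have hβ0 : (β : ℝ) ≠ 0 := hβ.ne'
  have hβi : β ≠ 0 := by exact_mod_cast hβ0
  have hHi : 0 < H := by exact_mod_cast hH
  have hki : k < 0 := by exact_mod_cast hneg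
  have hA : ((r * β - p * H : ℤ) : ℝ) = (t * β) * β := by
    push_cast
    rw [er', ep']
    ring
  have hW2 : (t * β) ^ 2 = ((r ^ 2 - H * k : ℤ) : ℝ) := by
    push_cast
    rw [er', ek']
    ring
  have hdvd : β ^ 2 ∣ (r * β - p * H) ^ 2 := by
    refine ⟨r ^ 2 - H * k, ?_⟩
    have : (((r * β - p * H) ^ 2 : ℤ) : ℝ) = ((β ^ 2 * (r ^ 2 - H * k) : ℤ) : ℝ) := by
      rw [Int.cast_pow, hA, mul_pow, hW2, Int.cast_mul, Int.cast_pow]
      ring
    exact_mod_cast this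
  obtain ⟨W, hW⟩ := (Int.pow_dvd_pow_iff two_ne_zero).1 hdvd
  have hWt : t * β = W := by
    have h1 : (t * β) * β = (W : ℝ) * β := by
      rw [← hA, hW]
      push_cast
      ring
    exact mul_right_cancel₀ hβ0 h1
  have hWW : W ^ 2 = r ^ 2 - H * k := by
    rw [hWt] at hW2
    exact_mod_cast hW2
  have hHk : 0 < H * -k := mul_pos hHi (by omega)
  have hWr : |r| < |W| := sq_lt_sq.1 (by rw [hWW]; linarith)
  have hWb : |W| ≤ H * -k := by
    have h1 : |W| ^ 2 - |r| ^ 2 = H * -k := by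
      rw [sq_abs, sq_abs]
      linarith
    have h2 : (|W| - |r|) * (|W| + |r|) = H * -k := by linarith
    have h3 : 1 ≤ |W| - |r| := by omega
    have h4 : 0 ≤ |r| := abs_nonneg r
    nlinarith
  have hW0 : W ≠ 0 := by
    rintro rfl
    rw [abs_zero] at hWr
    exact absurd hWr (not_lt.2 (abs_nonneg r))
  -- the integer `H * x - (r - W) * y`
  have hE : ((H * x - (r - W) * y : ℤ) : ℝ) = H * t * q' := by
    push_cast
    rw [ex', er', ← hWt]
    ring
  have ht0 : t ≠ 0 := by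
    rintro rfl
    apply hW0
    have : (0 : ℝ) = W := by rw [← hWt]; ring
    exact_mod_cast this.symm
  have hE0 : (H * x - (r - W) * y) ≠ 0 := by
    intro h0
    rw [h0] at hE
    have : H * t * (q' : ℝ) ≠ 0 := mul_ne_zero (mul_ne_zero hH.ne' ht0) hzl.ne'
    apply this
    rw [← hE]
    simp
  have hE1 : (1 : ℝ) ≤ |H * t * q'| := by
    rw [← hE]
    exact_mod_cast Int.one_le_abs hE0
  have habs : |(H : ℝ) * t * q'| * β = H * |(W : ℝ)| * q' := by
    rw [← hWt, abs_mul, abs_mul, abs_mul, abs_of_pos hH, abs_of_pos hzl, abs_of_pos hβ]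
    ring
  have hWR : |(W : ℝ)| ≤ H * C := by
    have h1 : |(W : ℝ)| ≤ H * -k := by exact_mod_cast hWb
    refine h1.trans (mul_le_mul_of_nonneg_left ?_ hH.le)
    linarith
  have hq0 : 0 < q := hzl.trans_le hq
  calc (β : ℝ) = 1 * β := (one_mul _).symm
    _ ≤ |(H : ℝ) * t * q'| * β := mul_le_mul_of_nonneg_right hE1 hβ.le
    _ = H * |(W : ℝ)| * q' := habs
    _ ≤ H * (H * C) * q := by
        apply mul_le_mul _ hq hzl.le
        · have : 0 ≤ (H : ℝ) * C := (abs_nonneg _).trans hWR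
          positivity
        · exact mul_le_mul_of_nonneg_left hWR hH.le
    _ = _ := by ring

end

section

variable {T : Fibrations.{u} n}

theorem image_int (hT : T.Facts) {φ : V n ≃ₗ[ℝ] V n} (hφ : φ ∈ T.mon) {x : V n} (hx : IsInt x)
    (h0 : x ≠ 0) (hq : T.B x x = 0) : IsInt (φ x) ∧ φ x ≠ 0 ∧ T.B (φ x) (φ x) = 0 := by
  obtain ⟨M, hM⟩ := exists_nef_of_isotropic hT hx h0 hq
  obtain ⟨M', -, h2⟩ := hT.relabel φ hφ M
  have h3 := h2 x hM
  exact ⟨h3.1.1, h3.2.1, h3.2.2.1⟩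

/-- A real class orthogonal to `f` with square of a given sign. -/
theorem exists_sign (hF : T.toModuli.Facts) (hn : 5 ≤ n) (f : V n) {s : ℝ} (hs : s ≠ 0) :
    ∃ u, T.Orth (Submodule.span ℝ {f}) u ∧ 0 < s * T.B u u := by
  rcases lt_or_gt_of_ne hs with h | h
  · obtain ⟨e, he, hee⟩ := neg_line hF hn f
    exact ⟨e, orth_span_singleton.2 he, mul_pos_of_neg_of_neg h hee⟩
  · obtain ⟨u, v, hu, hv, g1, g2⟩ := plane_line hF f
    exact ⟨u, hu, mul_pos h g1⟩

/-- Large images of an isotropic class in the direction of a real isotropic class. -/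
theorem seq (hT : T.Facts) (hn : 5 ≤ n) {l v : V n} (hl : IsInt l) (h0 : l ≠ 0)
    (hq : T.B l l = 0) (hv0 : v ≠ 0) (hvq : T.B v v = 0) {O : Set (V n)} (hO : IsOpen O)
    (hvO : v ∈ O) : ∃ q : ℝ, 0 < q ∧ ∀ ε : ℝ, 0 < ε → ∃ φ ∈ T.mon, ∃ c : ℝ, 0 < c ∧ c < ε ∧
      c • φ l ∈ O ∧ ∃ z, IsInt z ∧ 0 < T.B z (φ l) ∧ T.B z (φ l) ≤ q := by
  have hF : T.toModuli.Facts := hT.toFacts
  obtain ⟨φ₁, hφ₁, c₁, hc₁, hcO⟩ := lim_all hT hl h0 hq hv0 hvq O hO hvO
  obtain ⟨i1, i2, i3⟩ := image_int hT hφ₁ hl h0 hq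
  obtain ⟨f, c₀, hf, hf0, hff, hc₀, hfO⟩ : ∃ (f : V n) (c₀ : ℝ), IsInt f ∧ f ≠ 0 ∧ T.B f f = 0 ∧
      0 < c₀ ∧ c₀ • f ∈ O := by
    rcases lt_or_gt_of_ne hc₁ with h | h
    · refine ⟨-φ₁ l, -c₁, i1.neg, neg_ne_zero.2 i2, ?_, by linarith, ?_⟩
      · rw [map_neg, map_neg, LinearMap.neg_apply, neg_neg, i3]
      · rw [neg_smul_neg]
        exact hcO
    · exact ⟨φ₁ l, c₁, i1, i2, i3, h, hcO⟩
  obtain ⟨g, hg, hgg, hfg, -⟩ := exists_isotropic hF hf hf0 hff hf0 hff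
  have hg0 : g ≠ 0 := by
    rintro rfl
    simp at hfg
  have hgf : T.B g f ≠ 0 := by rwa [hF.symm]
  obtain ⟨φ₂, hφ₂, c₂, hc₂, hm⟩ := lim_all hT hl h0 hq hg0 hgg {w | T.B w f ≠ 0}
    (isOpen_ne.preimage (continuous_left T.toModuli f)) hgf
  have hfm : T.B f (φ₂ l) ≠ 0 := by
    intro h
    apply hm
    rw [map_smul, LinearMap.smul_apply, hF.symm, h, smul_zero]
  obtain ⟨m1, m2, m3⟩ := image_int hT hφ₂ hl h0 hq
  set m : V n := φ₂ l with hmdef
  obtain ⟨z, hz, hzm⟩ := exists_z hF m2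
  obtain ⟨z₂, hz₂, hzf⟩ := exists_z hF hf0
  obtain ⟨F, hFr⟩ := ratProj_line hF hf hz₂ hzf.ne'
  obtain ⟨u, hu, hus⟩ := exists_sign hF hn f (neg_ne_zero.2 hfm)
  obtain ⟨a, ha, haf, haa⟩ := approx hFr hu hus
  rw [orth_span_singleton] at haf
  have haa0 : T.B a a ≠ 0 := by
    intro h
    rw [h, mul_zero] at haa
    exact lt_irrefl _ haa
  obtain ⟨k, hk, hfin⟩ := hT.finite_index
  have h2a : T.B f ((2 : ℝ) • a) = 0 := by rw [map_smul, haf, smul_zero]
  have hψ := hfin (tvE hF f ((2 : ℝ) • a) hff h2a)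
    (fun x y => by
      rw [tvE_apply, tvE_apply]
      exact tv_isometry hF hff h2a x y)
    (fun x => by
      constructor
      · intro hx
        rw [tvE_apply]
        exact tv_int hF hf ha hx
      · intro hx
        have h1 := tv_int hF hf ha.neg hx
        rw [tvE_apply, tv_comp hF hff (by rw [map_smul, map_neg, haf]; simp) h2a] at h1
        have e : (2 : ℝ) • -a + (2 : ℝ) • a = 0 := by module
        rw [e, tv_zero] at h1
        exact h1)
  have hkr : (k : ℝ) ≠ 0 := by exact_mod_cast hk.ne'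
  have hkp : (0 : ℝ) < k := by exact_mod_cast hk
  set γ : ℝ := 1 / (2 * (k : ℝ) ^ 2 * (-T.B f m * T.B a a)) with hγ
  have hγ0 : 0 < γ := by
    rw [hγ]
    positivity
  set u' : V n := γ • ((-(2 * (k : ℝ) * T.B a m)) • f + (2 * (k : ℝ) * T.B f m) • a) with hu'
  have key : ∀ N : ℕ, 0 < N → (γ * ((N : ℝ)⁻¹ * (N : ℝ)⁻¹)) •
      ((((tvE hF f ((2 : ℝ) • a) hff h2a) ^ k) ^ N * φ₂) l) =
      f + (N : ℝ)⁻¹ • u' + ((N : ℝ)⁻¹ * (N : ℝ)⁻¹) • (γ • m) := by
    intro N hN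
    have hNr : (N : ℝ) ≠ 0 := by exact_mod_cast hN.ne'
    rw [LinearEquiv.mul_apply, ← hmdef, ← pow_mul, tvE_pow, tv_apply, hu']
    simp only [map_smul, LinearMap.smul_apply, smul_eq_mul]
    push_cast
    match_scalars
    · rw [hγ]
      field_simp
    · rw [hγ]
      field_simp
      ring
    · rw [hγ]
      field_simp
  have h0' : Tendsto (fun N : ℕ => (N : ℝ)⁻¹) atTop (𝓝 0) := tendsto_inv_atTop_nhds_zero_nat
  have hlim : Tendsto (fun N : ℕ => c₀ • (f + (N : ℝ)⁻¹ • u' +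
      ((N : ℝ)⁻¹ * (N : ℝ)⁻¹) • (γ • m))) atTop (𝓝 (c₀ • f)) := by
    have h1 := (((tendsto_const_nhds (x := f)).add (h0'.smul_const u')).add
      ((h0'.mul h0').smul_const (γ • m))).const_smul c₀
    simpa using h1
  have hlim2 : Tendsto (fun N : ℕ => c₀ * (γ * ((N : ℝ)⁻¹ * (N : ℝ)⁻¹))) atTop (𝓝 0) := by
    have h1 := ((h0'.mul h0').const_mul γ).const_mul c₀
    simpa using h1
  refine ⟨T.B z m, hzm, fun ε hε => ?_⟩
  obtain ⟨N, ⟨hN, hNε⟩, hN1⟩ := (((hlim.eventually (hO.mem_nhds hfO)).and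
    (hlim2.eventually (gt_mem_nhds hε))).and (eventually_gt_atTop 0)).exists
  have hNr : (0 : ℝ) < N := by exact_mod_cast hN1
  refine ⟨_, T.mon.mul_mem (T.mon.pow_mem hψ N) hφ₂, c₀ * (γ * ((N : ℝ)⁻¹ * (N : ℝ)⁻¹)),
    by positivity, hNε, ?_, (((tvE hF f ((2 : ℝ) • a) hff h2a) ^ k) ^ N) z, ?_, ?_⟩
  · rw [mul_smul, key N hN1]
    exact hN
  · rw [← pow_mul, tvE_pow]
    have := tv_int hF hf (ha.zsmul ((k * N : ℕ) : ℤ)) hz
    rw [smul_comm] at this
    exact_mod_cast this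
  · rw [LinearEquiv.mul_apply, ← hmdef, ← pow_mul, tvE_pow, tvE_pow,
      tv_isometry hF hff (by rw [map_smul, h2a, smul_zero])]
    exact ⟨hzm, le_rfl⟩

end

end Pool.Agent.H904.PD
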